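import Pool.Agent.Lib.MP_1a91b9_nuX.UF.Top
import Pool.Agent.Lib.MP_1a91b9_nuY.TF.Main
import Pool.Agent.Lib.MP_1a91b9_nuW.UG.Sp

/-!
# Towers over abelian fields for the forms of the curve over the base field, for all the curves with
complex multiplication by a maximal order of class number one
-/

set_option autoImplicit false

namespace Pool.Agent.Lib.MP_1a91b9_nuY.UG

open NumberField IsDedekindDomain Module WeierstrassCurve Pool.Agent.Lib.MP_1a91b9_nuT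
open Pool.Agent.Lib.MP_1a91b9_nuX
open Pool.Agent.Lib.MP_1a91b9_nuX.TG (ConclR)
open Pool.Agent.Lib.MP_1a91b9_nuX.UF (jd jd_mem jd_disc jd_case exists_cd)
open Pool.Agent.Lib.MP_1a91b9_nuW.UG (splt_of_sq)

/-- The condition on the ramification: ramification above `ℓ` is permitted if the discriminant `d`
is a square modulo `ℓ`. -/
def RamU (ℓ : ℕ) (d : ℤ) {F₀ : Type} [Field F₀] [NumberField F₀] (α β : 𝓞 F₀) (L : Type)
    [Field L] [NumberField L] [Algebra F₀ L] : Prop :=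
  ∀ (v : HeightOneSpectrum (𝓞 F₀)) (w : HeightOneSpectrum (𝓞 L)),
    v.asIdeal.map (algebraMap (𝓞 F₀) (𝓞 L)) ≤ w.asIdeal ^ 2 →
      ((ℓ : 𝓞 F₀) ∈ v.asIdeal → IsSquare ((d : ℤ) : ZMod ℓ)) ∧
      (6 * (4 * α ^ 3 + 27 * β ^ 2) ∉ v.asIdeal →
        ¬ ℓ ∣ Nat.card (⟨0, 0, 0, Ideal.Quotient.mk v.asIdeal α,
          Ideal.Quotient.mk v.asIdeal β⟩ : WeierstrassCurve (𝓞 F₀ ⧸ v.asIdeal)).toAffine.Point)

/-- The conclusion for all the fields of the tower and all the forms of the curve. -/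
def TowU (ℓ : ℕ) (d : ℤ) {F₀ : Type} [Field F₀] [NumberField F₀] (α β : 𝓞 F₀) : Prop :=
  ∀ (n : ℕ) (N L M : Type) [Field N] [NumberField N] [Field L] [NumberField L] [Field M]
    [NumberField M] [Algebra N L] [Algebra F₀ L] [Algebra L M] [Algebra F₀ M]
    [IsScalarTower F₀ L M] [IsGalois F₀ M], finrank F₀ M = ℓ ^ n → RamU ℓ d α β L →
    ∀ (W : WeierstrassCurve N) (C : VariableChange L),
      C • W.baseChange L = ⟨0, 0, 0, algebraMap F₀ L α, algebraMap F₀ L β⟩ →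
      ConclR W ∧ ∀ _ : Fact ℓ.Prime, MP_1a91b9_nuT.PL.Concl ℓ W

/-- **The theorem.** -/
theorem thmU (K₀ N₀ F₀ L₀ : Type) [Field K₀] [NumberField K₀] [Field N₀] [NumberField N₀]
    [Field F₀] [NumberField F₀] [Field L₀] [NumberField L₀] [DecidableEq L₀] [Algebra K₀ F₀]
    [Algebra N₀ F₀] [Algebra K₀ L₀] [Algebra F₀ L₀] [IsScalarTower K₀ F₀ L₀]
    (hK : finrank ℚ K₀ = 2) {J d A B : ℤ} (hJd : (J, d) ∈ jd)
    (hd : ∃ w : K₀, w ^ 2 = ((d : ℤ) : K₀)) (hAB : 4 * A ^ 3 + 27 * B ^ 2 ≠ 0)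
    (hj : 6912 * A ^ 3 = J * (4 * A ^ 3 + 27 * B ^ 2))
    (hN : IntermediateField.adjoin N₀ (Set.range (algebraMap K₀ F₀)) = ⊤) (x y : L₀)
    (hxy : (⟨0, 0, 0, ((A : ℤ) : L₀), ((B : ℤ) : L₀)⟩ :
      WeierstrassCurve L₀).toAffine.Nonsingular x y)
    (ht : IsOfFinAddOrder (Affine.Point.some x y hxy))
    (hL₀ : IntermediateField.adjoin K₀ {x, y} = ⊤) {α β : 𝓞 N₀}
    (h0 : 4 * α ^ 3 + 27 * β ^ 2 ≠ 0) {C₀ : VariableChange L₀}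
    (hC₀ : C₀ • (⟨0, 0, 0, algebraMap F₀ L₀ (algebraMap N₀ F₀ α),
      algebraMap F₀ L₀ (algebraMap N₀ F₀ β)⟩ : WeierstrassCurve L₀) =
        ⟨0, 0, 0, ((A : ℤ) : L₀), ((B : ℤ) : L₀)⟩)
    (hg : ∃ g : ℂ → ℂ, Differentiable ℂ g ∧ (∀ s : ℂ, 3 / 2 < s.re →
      g s = (⟨0, 0, 0, (α : N₀), (β : N₀)⟩ : WeierstrassCurve N₀).LSeries s) ∧ g 1 ≠ 0) :
    ∃ S : Finset ℕ, ∀ ℓ : ℕ, ℓ.Prime → ℓ ∉ S →
      TowU ℓ d (algebraMap (𝓞 N₀) (𝓞 F₀) α) (algebraMap (𝓞 N₀) (𝓞 F₀) β) := by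
  have hJ : J ∈ UF.jList.map Prod.fst := jd_mem hJd
  obtain ⟨tr, nm, -, hg', u, hu, cd, -, hmem, htr, hnm, hA, hB, -, -, -⟩ :=
    exists_cd hAB hj hJ 1 one_ne_zero
  subst htr
  subst hnm
  have hdd : d = CD.tr ^ 2 - 4 * CD.nm := jd_disc hJd hmem
  have hcase := jd_case hmem
  have hE := HW.ellK_all hcase
  obtain ⟨f, p, hp⟩ := HW.hdat_all hcase
  let iH : HC := ⟨f, p, hp⟩
  obtain ⟨w, hw⟩ := hd
  have hw' : ((w + (CD.tr : K₀)) / 2) ^ 2 =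
      (CD.tr : K₀) * ((w + (CD.tr : K₀)) / 2) - (CD.nm : K₀) := by
    rw [hdd] at hw
    push_cast at hw
    linear_combination hw / 4
  obtain ⟨S, hS⟩ := TF.thmT hE K₀ N₀ F₀ L₀ hK hw' (k := u) hu hA hB hN x y hxy ht hL₀ h0 hC₀ hg
  refine ⟨S ∪ (CD.bad).natAbs.primeFactors, fun ℓ hℓ hn => ?_⟩
  rw [Finset.mem_union, not_or] at hn
  have hbad : ¬ (ℓ : ℤ) ∣ CD.bad := fun h =>
    hn.2 (Nat.mem_primeFactors.2 ⟨hℓ, Int.natCast_dvd.1 h, Int.natAbs_ne_zero.2 CD.bad_ne⟩)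
  intro n N L M _ _ _ _ _ _ _ _ _ _ _ _ hM hR W C hC
  refine hS ℓ hℓ hn.1 n N L M hM (fun v w hvw => ⟨fun hv => ?_, (hR v w hvw).2⟩) W C hC
  refine splt_of_sq hℓ hbad ?_
  have h1 := (hR v w hvw).1 hv
  rwa [hdd] at h1

end Pool.Agent.Lib.MP_1a91b9_nuY.UG
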